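import Mathlib

set_option autoImplicit false

/-!
A counterexample to the partition conjecture for k = 3 and a single prescribed vertex.

The graph: a complete f-ary tree of depth f (vertices: lists over Fin f of length at most f, the
parent of c :: l is l), and for every set Y of at least f leaves, f extra vertices adjacent
exactly to the members of Y.
-/

namespace Pool.Agent.P.MP_ddd490_co

/-- Tree vertices. -/
abbrev Tr (f : ℕ) : Type := {l : List (Fin f) // l.length ≤ f}

instance finiteTr (f : ℕ) : Finite (Tr f) := (List.finite_length_le (Fin f) f).to_subtype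

/-- Large sets of leaves. -/
abbrev Big (f : ℕ) : Type := {Y : Set (Tr f) // f ≤ Y.ncard ∧ ∀ t ∈ Y, t.1.length = f}

/-- All vertices. -/
abbrev Vx (f : ℕ) : Type := Tr f ⊕ (Big f × Fin f)

/-- The directed version of adjacency. -/
def Arc (f : ℕ) : Vx f → Vx f → Prop
  | Sum.inl s, Sum.inl t => ∃ c : Fin f, t.1 = c :: s.1
  | Sum.inl s, Sum.inr w => s ∈ w.1.1
  | Sum.inr _, _ => False

/-- The graph. -/
def Gr (f : ℕ) : SimpleGraph (Vx f) := SimpleGraph.fromRel (Arc f)

lemma adj_child {f : ℕ} (s t : Tr f) (c : Fin f) (h : t.1 = c :: s.1) :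
    (Gr f).Adj (Sum.inl s) (Sum.inl t) := by
  rw [Gr, SimpleGraph.fromRel_adj]
  refine ⟨?_, Or.inl ⟨c, h⟩⟩
  intro e
  have e' : s = t := Sum.inl_injective e
  subst e'
  have := congrArg List.length h
  simp at this

lemma adj_killer {f : ℕ} (s : Tr f) (w : Big f × Fin f) (h : s ∈ w.1.1) :
    (Gr f).Adj (Sum.inl s) (Sum.inr w) := by
  rw [Gr, SimpleGraph.fromRel_adj]
  exact ⟨Sum.inl_ne_inr, Or.inl h⟩

lemma killer_nbr {f : ℕ} (w : Big f × Fin f) (v : Vx f) (h : (Gr f).Adj (Sum.inr w) v) :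
    ∃ s ∈ w.1.1, v = Sum.inl s := by
  rw [Gr, SimpleGraph.fromRel_adj] at h
  rcases h with ⟨_, h | h⟩
  · exact h.elim
  · cases v with
    | inl s => exact ⟨s, h, rfl⟩
    | inr w' => exact h.elim

lemma inner_nbr {f : ℕ} (s : Tr f) (hs : s.1.length < f) (v : Vx f)
    (h : (Gr f).Adj (Sum.inl s) v) :
    ∃ t : Tr f, v = Sum.inl t ∧ ((∃ c, t.1 = c :: s.1) ∨ t.1 = s.1.tail) := by
  rw [Gr, SimpleGraph.fromRel_adj] at h
  rcases h with ⟨_, h | h⟩
  · cases v with
    | inl t => exact ⟨t, rfl, Or.inl h⟩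
    | inr w =>
      have := w.1.2.2 s h
      omega
  · cases v with
    | inl t =>
      obtain ⟨c, hc⟩ := h
      exact ⟨t, rfl, Or.inr (by rw [hc]; rfl)⟩
    | inr w => exact h.elim

/-- The colour of a vertex. -/
def col {f : ℕ} (d : Fin f) : Vx f → Fin f
  | Sum.inl s => s.1.headD d
  | Sum.inr w => w.2

/-- The set of all leaves. -/
def leaves (f : ℕ) : Set (Tr f) := {t | t.1.length = f}

lemma leaves_big {f : ℕ} (hf : 0 < f) : f ≤ (leaves f).ncard := by
  let g : Fin f → Tr f := fun c => ⟨List.replicate f c, by simp⟩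
  have hg : Function.Injective g := by
    intro c c' h
    have h1 : List.replicate f c = List.replicate f c' := congrArg Subtype.val h
    have := (List.replicate_inj.mp h1).2
    rcases this with h | h
    · omega
    · exact h
  have hsub : Set.range g ⊆ leaves f := by
    rintro _ ⟨c, rfl⟩
    simp [leaves, g]
  have := Set.ncard_le_ncard hsub (Set.toFinite _)
  rw [Set.ncard_range_of_injective hg] at this
  simpa using this

lemma card_big {f : ℕ} (hf : 0 < f) : f < Nat.card (Vx f) := by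
  have h1 : f ≤ Nat.card (Tr f) := by
    have := Set.ncard_le_card (leaves f)
    exact (leaves_big hf).trans this
  have h2 : 0 < Nat.card (Big f × Fin f) := by
    have : Nonempty (Big f × Fin f) :=
      ⟨(⟨leaves f, leaves_big hf, fun _ h => h⟩, ⟨0, hf⟩)⟩
    exact Nat.card_pos
  have h3 : Nat.card (Vx f) = Nat.card (Tr f) + Nat.card (Big f × Fin f) := Nat.card_sum
  omega

theorem connected_of_small {f : ℕ} (X : Finset (Vx f)) (hX : X.card < f) :
    ((Gr f).induce ((X : Set (Vx f))ᶜ)).Connected := by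
  classical
  have hf : 0 < f := by omega
  let d : Fin f := ⟨0, hf⟩
  obtain ⟨c, hc⟩ : ∃ c : Fin f, c ∉ X.image (col d) := by
    by_contra hcon
    push Not at hcon
    have h1 : (Finset.univ : Finset (Fin f)) ⊆ X.image (col d) := fun c _ => hcon c
    have h2 := Finset.card_le_card h1
    have h3 := Finset.card_image_le (s := X) (f := col d)
    simp at h2
    omega
  have hcol : ∀ v : Vx f, col d v = c → v ∈ ((X : Set (Vx f))ᶜ) := by
    intro v hv hmem
    exact hc (Finset.mem_image.mpr ⟨v, hmem, hv⟩)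
  let w0 : Vx f := Sum.inr (⟨leaves f, leaves_big hf, fun _ h => h⟩, c)
  have hw0 : w0 ∈ ((X : Set (Vx f))ᶜ) := hcol w0 rfl
  have htree : ∀ (n : ℕ) (s : Tr f) (hs : (Sum.inl s : Vx f) ∈ ((X : Set (Vx f))ᶜ)),
      s.1.length + n = f →
      ((Gr f).induce ((X : Set (Vx f))ᶜ)).Reachable ⟨Sum.inl s, hs⟩ ⟨w0, hw0⟩ := by
    intro n
    induction n with
    | zero =>
      intro s hs hl
      apply SimpleGraph.Adj.reachable
      exact adj_killer s _ (show s.1.length = f by simpa using hl)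
    | succ n ih =>
      intro s hs hl
      let t : Tr f := ⟨c :: s.1, by simp; omega⟩
      have ht : (Sum.inl t : Vx f) ∈ ((X : Set (Vx f))ᶜ) := hcol _ rfl
      have h1 : ((Gr f).induce ((X : Set (Vx f))ᶜ)).Adj ⟨Sum.inl s, hs⟩ ⟨Sum.inl t, ht⟩ :=
        adj_child s t c rfl
      exact h1.reachable.trans (ih t ht (by simp [t]; omega))
  have hall : ∀ v : ((X : Set (Vx f))ᶜ : Set (Vx f)),
      ((Gr f).induce ((X : Set (Vx f))ᶜ)).Reachable v ⟨w0, hw0⟩ := by
    rintro ⟨v, hv⟩
    cases v with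
    | inl s => exact htree (f - s.1.length) s hv (by have := s.2; omega)
    | inr w =>
      obtain ⟨s, hs, hsX⟩ : ∃ s ∈ w.1.1, (Sum.inl s : Vx f) ∈ ((X : Set (Vx f))ᶜ) := by
        by_contra hcon
        push Not at hcon
        have h1 : (Sum.inl '' w.1.1 : Set (Vx f)) ⊆ (X : Set (Vx f)) := by
          rintro _ ⟨s, hs, rfl⟩
          have := hcon s hs
          simpa using this
        have h2 := Set.ncard_le_ncard h1 (Set.toFinite _)
        rw [Set.ncard_image_of_injective _ Sum.inl_injective, Set.ncard_coe_finset] at h2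
        have := w.1.2.1
        omega
      have h1 : ((Gr f).induce ((X : Set (Vx f))ᶜ)).Adj ⟨Sum.inl s, hsX⟩ ⟨Sum.inr w, hv⟩ :=
        adj_killer s w hs
      exact h1.reachable.symm.trans
        (htree (f - s.1.length) s hsX (by have := s.2; omega))
  have : Nonempty ((X : Set (Vx f))ᶜ : Set (Vx f)) := ⟨⟨w0, hw0⟩⟩
  exact ⟨fun u v => (hall u).trans (hall v).symm⟩

/-- In a k-connected induced subgraph every vertex has at least k neighbours. -/
theorem min_degree {V : Type} [Finite V] (G : SimpleGraph V) (A : Set V) (k : ℕ)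
    (h1 : k < Nat.card A)
    (h2 : ∀ X : Finset A, X.card < k → ((G.induce A).induce ((X : Set A)ᶜ)).Connected)
    (v : V) (hv : v ∈ A) : k ≤ (A ∩ G.neighborSet v).ncard := by
  classical
  by_contra hlt
  push Not at hlt
  have : Fintype A := Fintype.ofFinite A
  let X : Finset A := Finset.univ.filter (fun a => G.Adj v a.1)
  have hXc : X.card = (A ∩ G.neighborSet v).ncard := by
    rw [← Set.ncard_coe_finset, ← Set.ncard_image_of_injective _ Subtype.val_injective]
    congr 1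
    ext a
    simp only [X, Set.mem_image, Finset.coe_filter, Finset.mem_univ, true_and, Set.mem_ofPred_eq,
      Set.mem_inter_iff, SimpleGraph.mem_neighborSet]
    constructor
    · rintro ⟨b, hb, rfl⟩
      exact ⟨b.2, hb⟩
    · rintro ⟨ha, hb⟩
      exact ⟨⟨a, ha⟩, hb, rfl⟩
  have hconn := h2 X (by omega)
  have hvX : (⟨v, hv⟩ : A) ∈ ((X : Set A)ᶜ) := by
    simp [X]
  obtain ⟨u, hu⟩ : ∃ u : A, u ∉ insert (⟨v, hv⟩ : A) X := by
    by_contra hcon
    push Not at hcon
    have h3 : (Finset.univ : Finset A) ⊆ insert (⟨v, hv⟩ : A) X := fun c _ => hcon c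
    have h4 := Finset.card_le_card h3
    have h5 := Finset.card_insert_le (⟨v, hv⟩ : A) X
    rw [Finset.card_univ, ← Nat.card_eq_fintype_card] at h4
    omega
  rw [Finset.mem_insert, not_or] at hu
  have huX : u ∈ ((X : Set A)ᶜ) := by simpa using hu.2
  obtain ⟨p⟩ := hconn.preconnected ⟨⟨v, hv⟩, hvX⟩ ⟨u, huX⟩
  cases hp : p with
  | nil => exact hu.1 rfl
  | cons hadj q =>
    rename_i z
    have hz : G.Adj v z.1.1 := hadj
    have hz2 := z.2
    apply hz2
    simp [X, hz]

theorem many_leaves {f : ℕ} (A : Set (Vx f))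
    (hdeg : ∀ v ∈ A, 3 ≤ (A ∩ (Gr f).neighborSet v).ncard)
    (h0 : (Sum.inl ⟨[], Nat.zero_le _⟩ : Vx f) ∈ A) (j : ℕ) (hj : j ≤ f) :
    j + 1 ≤ {t : Tr f | t.1.length = j ∧ (Sum.inl t : Vx f) ∈ A}.ncard := by
  classical
  induction j with
  | zero =>
    have : (⟨[], Nat.zero_le _⟩ : Tr f) ∈
        {t : Tr f | t.1.length = 0 ∧ (Sum.inl t : Vx f) ∈ A} := ⟨rfl, h0⟩
    have := (Set.ncard_pos (Set.toFinite _)).mpr ⟨_, this⟩
    omega
  | succ j ih =>
    have ih := ih (by omega)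
    set P := {t : Tr f | t.1.length = j ∧ (Sum.inl t : Vx f) ∈ A} with hP
    set Q := {t : Tr f | t.1.length = j + 1 ∧ (Sum.inl t : Vx f) ∈ A} with hQ
    have two : ∀ s ∈ P, ∃ t1 t2 : Tr f, t1 ∈ Q ∧ t2 ∈ Q ∧ t1 ≠ t2 ∧ t1.1.tail = s.1 ∧
        t2.1.tail = s.1 := by
      intro s hs
      have h3 := hdeg _ hs.2
      let par : Tr f := ⟨s.1.tail, by have := s.2; simp; omega⟩
      have h4 : 2 ≤ ((A ∩ (Gr f).neighborSet (Sum.inl s)) \ {Sum.inl par}).ncard := by
        have := Set.ncard_le_ncard_sdiff_add_ncard (A ∩ (Gr f).neighborSet (Sum.inl s))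
          (t := {Sum.inl par}) (Set.toFinite _)
        rw [Set.ncard_singleton] at this
        omega
      obtain ⟨a, ha, b, hb, hab⟩ := (Set.one_lt_ncard (Set.toFinite _)).mp h4
      have key : ∀ a ∈ ((A ∩ (Gr f).neighborSet (Sum.inl s)) \ {Sum.inl par}),
          ∃ t : Tr f, a = Sum.inl t ∧ t ∈ Q ∧ t.1.tail = s.1 := by
        intro a ha
        obtain ⟨t, rfl, ht⟩ := inner_nbr s (by have := hs.1; omega) a ha.1.2
        rcases ht with ⟨c, hc⟩ | ht
        · refine ⟨t, rfl, ⟨?_, ha.1.1⟩, by rw [hc]; rfl⟩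
          rw [hc, List.length_cons, hs.1]
        · exfalso
          apply ha.2
          have : t = par := Subtype.ext ht
          rw [this]
          rfl
      obtain ⟨t1, rfl, ht1, ht1'⟩ := key a ha
      obtain ⟨t2, rfl, ht2, ht2'⟩ := key b hb
      exact ⟨t1, t2, ht1, ht2, fun e => hab (by rw [e]), ht1', ht2'⟩
    have hPne : P.Nonempty := (Set.ncard_pos (Set.toFinite _)).mp (by omega)
    obtain ⟨s0, hs0⟩ := hPne
    obtain ⟨t1, t2, ht1, ht2, hne, e1, e2⟩ := two s0 hs0
    let up : Tr f → Tr f := fun t => ⟨t.1.tail, by have := t.2; simp; omega⟩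
    have hsub : P ⊆ up '' (Q \ {t1}) := by
      intro s hs
      obtain ⟨u1, u2, hu1, hu2, hune, f1, f2⟩ := two s hs
      by_cases h : u1 = t1
      · refine ⟨u2, ⟨hu2, ?_⟩, Subtype.ext f2⟩
        intro h'
        exact hune (h.trans (Eq.symm h'))
      · exact ⟨u1, ⟨hu1, h⟩, Subtype.ext f1⟩
    have h5 := Set.ncard_le_ncard hsub (Set.toFinite _)
    have h6 := Set.ncard_image_le (f := up) (s := Q \ {t1}) (Set.toFinite _)
    have h7 := Set.ncard_sdiff_singleton_add_one ht1 (Set.toFinite _)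
    omega

theorem no_partition {f : ℕ} (A : Set (Vx f))
    (h0 : (Sum.inl ⟨[], Nat.zero_le _⟩ : Vx f) ∈ A) (hf : 0 < f)
    (hA : ∀ v ∈ A, 3 ≤ (A ∩ (Gr f).neighborSet v).ncard)
    (hB : ∀ v ∈ Aᶜ, 3 ≤ (Aᶜ ∩ (Gr f).neighborSet v).ncard)
    (hAB : ∀ v ∈ A, 3 ≤ (Aᶜ ∩ (Gr f).neighborSet v).ncard) : False := by
  have h1 := many_leaves A hA h0 f le_rfl
  let Y : Big f := ⟨{t : Tr f | t.1.length = f ∧ (Sum.inl t : Vx f) ∈ A}, by omega,
    fun t ht => ht.1⟩
  let w : Vx f := Sum.inr (Y, ⟨0, hf⟩)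
  have hw : 3 ≤ (Aᶜ ∩ (Gr f).neighborSet w).ncard := by
    by_cases h : w ∈ A
    · exact hAB w h
    · exact hB w h
  obtain ⟨v, hv⟩ : (Aᶜ ∩ (Gr f).neighborSet w).Nonempty :=
    (Set.ncard_pos (Set.toFinite _)).mp (by omega)
  obtain ⟨s, hs, rfl⟩ := killer_nbr _ v hv.2
  exact hv.1 hs.2

end Pool.Agent.P.MP_ddd490_co
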